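import Mathlib

set_option autoImplicit false

/-!
# The closure of a cyclic regular isometry group of the Urysohn space always has torsion

Let `Q` be the rational Urysohn space (the Fraisse limit of the finite metric spaces with rational
distances), `σ` a cyclic automorphism of `Q` (its powers act regularly), `hat σ` its extension to the
completion `U` of `Q`, that is to the Urysohn space, and `G σ` the closure of the group generated by
`hat σ` in the group of all surjective isometries of `U` with the topology of pointwise convergence.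
We prove that `G σ` always contains an element of order two.

Idea: write `N n` for the distance from `x₀` to `σ ^ n x₀`. If `t` has distance `v / 2` from `p` and
from `-p` then `N (2 t) ≤ v`. Such points exist, with many further prescribed distances, and a chain of
them starting at `0` comes as close as `N (2 y) / 2 + v` to any given `y`. Iterating with `v → 0`
gives a Cauchy sequence of integers `y i` with `N (2 y i) → 0` that stays away from `0`.
-/

namespace Pool.Agent.Results.MP_30c7ca_gt.AlwaysTorsion

open UniformSpace Filter Topology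

/-- All distances are rational. -/
def RatDist (F : Type) [MetricSpace F] : Prop := ∀ x y : F, ∃ q : ℚ, dist x y = q

/-- `Q` is the rational Urysohn space, the Fraisse limit of the class of finite metric spaces with
rational distances: it is countable, has rational distances, contains an isometric copy of every finite
metric space with rational distances, and every isometry between two finite subsets extends to an
isometry of `Q` onto itself. -/
structure IsRatUrysohn (Q : Type) [MetricSpace Q] : Prop where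
  countable : Countable Q
  rat : RatDist Q
  universal : ∀ (F : Type) [MetricSpace F] [Finite F], RatDist F → ∃ f : F → Q, Isometry f
  homogeneous : ∀ S : Set Q, S.Finite → ∀ f : S → Q, Isometry f →
    ∃ g : Q ≃ᵢ Q, ∀ x : S, g x = f x

/-- A cyclic automorphism: the powers of `σ` act regularly. -/
def IsCyclicAut {Q : Type} [MetricSpace Q] (σ : Q ≃ᵢ Q) : Prop :=
  ∀ x y : Q, ∃! n : ℤ, (σ ^ n) x = y

/-- The extension of an isometry of `Q` to the completion, as a homomorphism of groups. -/
noncomputable def hat (Q : Type) [MetricSpace Q] :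
    (Q ≃ᵢ Q) →* (Completion Q ≃ᵢ Completion Q) where
  toFun σ :=
    { toFun := Completion.map σ
      invFun := Completion.map σ.symm
      left_inv := fun u => by
        have h := Completion.map_comp (f := σ) (g := σ.symm) σ.symm.isometry.uniformContinuous
          σ.isometry.uniformContinuous
        have h2 := congrFun h u
        simp only [Function.comp_apply] at h2
        rw [h2]
        have h3 : (σ.symm ∘ σ : Q → Q) = id := by
          funext x; simp
        rw [h3, Completion.map_id, id]
      right_inv := fun u => by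
        have h := Completion.map_comp (f := σ.symm) (g := σ) σ.isometry.uniformContinuous
          σ.symm.isometry.uniformContinuous
        have h2 := congrFun h u
        simp only [Function.comp_apply] at h2
        rw [h2]
        have h3 : (σ ∘ σ.symm : Q → Q) = id := by
          funext x; simp
        rw [h3, Completion.map_id, id]
      isometry_toFun := σ.isometry.completion_map }
  map_one' := by
    ext u
    exact congrFun (Completion.map_id (α := Q)) u
  map_mul' σ τ := by
    ext u
    have h := Completion.map_comp (f := τ) (g := σ) σ.isometry.uniformContinuous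
      τ.isometry.uniformContinuous
    exact (congrFun h u).symm

/-- The topology of pointwise convergence on the group of surjective isometries. -/
@[reducible] def isoTop (U : Type) [MetricSpace U] : TopologicalSpace (U ≃ᵢ U) :=
  TopologicalSpace.induced (fun g => (g : U → U)) Pi.topologicalSpace

/-- The closure of the cyclic group generated by the extension of `σ`. -/
def G {Q : Type} [MetricSpace Q] (σ : Q ≃ᵢ Q) : Set (Completion Q ≃ᵢ Completion Q) :=
  @closure _ (isoTop (Completion Q)) (Subgroup.zpowers (hat Q σ) : Set _)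

/-! ### The extension property -/

/-- The one point extension as a metric space. -/
@[reducible] def optMetric {S : Type} [MetricSpace S] (φ : S → ℝ) (hpos : ∀ a, 0 < φ a)
    (h1 : ∀ a b, φ a ≤ φ b + dist a b) (h2 : ∀ a b, dist a b ≤ φ a + φ b) :
    MetricSpace (Option S) where
  dist x y := match x, y with
    | none, none => 0
    | none, some a => φ a
    | some a, none => φ a
    | some a, some b => dist a b
  dist_self x := by cases x <;> simp
  dist_comm x y := by cases x <;> cases y <;> simp [dist_comm]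
  dist_triangle x y z := by
    rcases x with _ | a <;> rcases y with _ | b <;> rcases z with _ | c
    · simp
    · simp
    · have := hpos b; show (0:ℝ) ≤ φ b + φ b; linarith
    · show φ c ≤ φ b + dist b c
      have := h1 c b
      rw [dist_comm] at this
      exact this
    · show φ a ≤ φ a + 0; linarith
    · exact h2 a c
    · show φ a ≤ dist a b + φ b
      have := h1 a b
      linarith
    · exact dist_triangle a b c
  eq_of_dist_eq_zero {x y} h := by
    rcases x with _ | a <;> rcases y with _ | b
    · rfl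
    · exact absurd h (hpos b).ne'
    · exact absurd h (hpos a).ne'
    · exact congrArg some (eq_of_dist_eq_zero h)

theorem extension {Q : Type} [MetricSpace Q] (hQ : IsRatUrysohn Q) {k : ℕ} (x : Fin k → Q)
    (f : Fin k → ℚ) (hpos : ∀ i, 0 < f i) (h1 : ∀ i j, (f i : ℝ) ≤ f j + dist (x i) (x j))
    (h2 : ∀ i j, dist (x i) (x j) ≤ f i + f j) : ∃ z : Q, ∀ i, dist z (x i) = f i := by
  classical
  set S : Set Q := Set.range x with hS
  have hSf : S.Finite := Set.finite_range x
  have hch : ∀ a : S, ∃ i, x i = a := fun a => a.2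
  choose ι hι using hch
  set φ : S → ℝ := fun a => (f (ι a) : ℝ) with hφ
  have hφx : ∀ (i : Fin k) (h : x i ∈ S), φ ⟨x i, h⟩ = f i := by
    intro i h
    have e : x (ι ⟨x i, h⟩) = x i := hι ⟨x i, h⟩
    have a1 := h1 (ι ⟨x i, h⟩) i
    have a2 := h1 i (ι ⟨x i, h⟩)
    rw [e, dist_self] at a1
    rw [e, dist_self] at a2
    show (f (ι ⟨x i, h⟩) : ℝ) = f i
    linarith
  have g1 : ∀ a b : S, φ a ≤ φ b + dist a b := by
    intro a b
    have := h1 (ι a) (ι b)
    rw [hι, hι] at this
    exact this
  have g2 : ∀ a b : S, dist a b ≤ φ a + φ b := by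
    intro a b
    have := h2 (ι a) (ι b)
    rw [hι, hι] at this
    exact this
  have g0 : ∀ a : S, 0 < φ a := fun a => by
    show (0:ℝ) < (f (ι a) : ℝ)
    exact_mod_cast hpos (ι a)
  let M : MetricSpace (Option S) := optMetric φ g0 g1 g2
  have hSfin : Finite S := hSf
  have hrat : RatDist (Option S) := by
    intro a b
    rcases a with _ | a <;> rcases b with _ | b
    · exact ⟨0, by simp⟩
    · exact ⟨f (ι b), rfl⟩
    · exact ⟨f (ι a), rfl⟩
    · exact hQ.rat a b
  obtain ⟨e, he⟩ := hQ.universal (Option S) hrat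
  have hf0 : Isometry (fun a : S => e (some a)) := by
    apply Isometry.of_dist_eq
    intro a b
    rw [he.dist_eq]
    rfl
  obtain ⟨g, hg⟩ := hQ.homogeneous S hSf _ hf0
  refine ⟨g.symm (e none), fun i => ?_⟩
  have hi : x i ∈ S := ⟨i, rfl⟩
  have h3 : dist (g.symm (e none)) (x i) = dist (g (g.symm (e none))) (g (x i)) :=
    (g.isometry.dist_eq _ _).symm
  have h4 : g (x i) = e (some ⟨x i, hi⟩) := hg ⟨x i, hi⟩
  rw [h3, g.apply_symm_apply, h4, he.dist_eq]
  exact hφx i hi

/-! ### Norms on the integers with the extension property -/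

/-- Abstract properties of `N n = dist x₀ (σ ^ n x₀)`. -/
structure Ext (N : ℤ → ℝ) : Prop where
  zero : N 0 = 0
  neg : ∀ n, N (-n) = N n
  add_le : ∀ m n, N (m + n) ≤ N m + N n
  rat : ∀ n, ∃ q : ℚ, N n = q
  ext : ∀ (k : ℕ) (x : Fin k → ℤ) (f : Fin k → ℚ), (∀ i, 0 < f i) →
    (∀ i j, (f i : ℝ) ≤ f j + N (x i - x j)) → (∀ i j, N (x i - x j) ≤ f i + f j) →
    ∃ t : ℤ, ∀ i, N (t - x i) = f i

namespace Ext

variable {N : ℤ → ℝ} (hN : Ext N)

include hN

theorem nonneg (n : ℤ) : 0 ≤ N n := by
  have h := hN.add_le n (-n)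
  rw [add_neg_cancel, hN.zero, hN.neg] at h
  linarith

theorem four (p y : ℤ) (α β : ℚ) (γ : ℝ) (hα : 0 < α) (hβ : 0 < β) (h1 : N (2 * p) ≤ 2 * α)
    (h2 : N (2 * y) ≤ 2 * β) (h3 : N (p - y) = γ) (h4 : N (p + y) = γ) (h5 : (α : ℝ) - β ≤ γ)
    (h6 : (β : ℝ) - α ≤ γ) (h7 : γ ≤ α + β) :
    ∃ t : ℤ, N (t - p) = α ∧ N (t + p) = α ∧ N (t - y) = β ∧ N (t + y) = β := by
  have hα' : (0:ℝ) < α := by exact_mod_cast hα
  have hβ' : (0:ℝ) < β := by exact_mod_cast hβ
  have n1 := hN.nonneg (2 * p)
  have n2 := hN.nonneg (2 * y)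
  have e0 : N 0 = 0 := hN.zero
  have e1 : N (p - -p) = N (2 * p) := by congr 1; ring
  have e2 : N (-p - p) = N (2 * p) := by rw [← hN.neg]; congr 1; ring
  have e3 : N (y - -y) = N (2 * y) := by congr 1; ring
  have e4 : N (-y - y) = N (2 * y) := by rw [← hN.neg]; congr 1; ring
  have e5 : N (p - -y) = γ := by rw [← h4]; congr 1; ring
  have e6 : N (-p - y) = γ := by rw [← h4, ← hN.neg]; congr 1; ring
  have e7 : N (-p - -y) = γ := by rw [← h3, ← hN.neg]; congr 1; ring
  have e8 : N (y - p) = γ := by rw [← h3, ← hN.neg]; congr 1; ring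
  have e9 : N (y - -p) = γ := by rw [← h4]; congr 1; ring
  have e10 : N (-y - p) = γ := by rw [← h4, ← hN.neg]; congr 1; ring
  have e11 : N (-y - -p) = γ := by rw [← h3]; congr 1; ring
  have e12 : N (p - p) = 0 := by rw [sub_self, e0]
  have e13 : N (-p - -p) = 0 := by rw [sub_self, e0]
  have e14 : N (y - y) = 0 := by rw [sub_self, e0]
  have e15 : N (-y - -y) = 0 := by rw [sub_self, e0]
  obtain ⟨t, ht⟩ := hN.ext 4 ![p, -p, y, -y] ![α, α, β, β]
    (by intro i; fin_cases i <;> simp [hα, hβ])
    (by
      intro i j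
      fin_cases i <;> fin_cases j <;>
        simp only [Fin.zero_eta, Fin.mk_one, Fin.reduceFinMk, Matrix.cons_val] <;>
        first
          | (rw [e12]; linarith) | (rw [e13]; linarith) | (rw [e14]; linarith)
          | (rw [e15]; linarith) | (rw [e1]; linarith) | (rw [e2]; linarith)
          | (rw [e3]; linarith) | (rw [e4]; linarith) | (rw [e5]; linarith)
          | (rw [e6]; linarith) | (rw [e7]; linarith) | (rw [e8]; linarith)
          | (rw [e9]; linarith) | (rw [e10]; linarith) | (rw [e11]; linarith)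
          | (rw [h3]; linarith))
    (by
      intro i j
      fin_cases i <;> fin_cases j <;>
        simp only [Fin.zero_eta, Fin.mk_one, Fin.reduceFinMk, Matrix.cons_val] <;>
        first
          | (rw [e12]; linarith) | (rw [e13]; linarith) | (rw [e14]; linarith)
          | (rw [e15]; linarith) | (rw [e1]; linarith) | (rw [e2]; linarith)
          | (rw [e3]; linarith) | (rw [e4]; linarith) | (rw [e5]; linarith)
          | (rw [e6]; linarith) | (rw [e7]; linarith) | (rw [e8]; linarith)
          | (rw [e9]; linarith) | (rw [e10]; linarith) | (rw [e11]; linarith)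
          | (rw [h3]; linarith))
  refine ⟨t, ?_, ?_, ?_, ?_⟩
  · simpa using ht 0
  · simpa using ht 1
  · simpa using ht 2
  · simpa using ht 3

theorem two_le (t p : ℤ) : N (2 * t) ≤ N (t - p) + N (t + p) := by
  have h := hN.add_le (t - p) (t + p)
  have e : t - p + (t + p) = 2 * t := by ring
  rwa [e] at h

/-- Long elements whose double is short. -/
theorem chain0 (v : ℚ) (hv : 0 < v) (m : ℕ) :
    ∃ t : ℤ, N t = m * (v / 2) ∧ N (2 * t) ≤ v := by
  have hv' : (0:ℝ) < v := by exact_mod_cast hv
  induction m with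
  | zero => exact ⟨0, by simp [hN.zero], by simpa [hN.zero] using hv'.le⟩
  | succ m ih =>
    obtain ⟨p, hp1, hp2⟩ := ih
    have hm : (0:ℝ) ≤ m := Nat.cast_nonneg m
    have h0 : (0:ℝ) ≤ m * (v / 2) := by positivity
    obtain ⟨t, h1, h2, h3, -⟩ := hN.four p 0 (v / 2) ((m + 1) * (v / 2)) (m * (v / 2))
      (by positivity) (by positivity) (by push_cast; linarith)
      (by rw [mul_zero, hN.zero]; push_cast; positivity)
      (by rw [sub_zero, hp1]) (by rw [add_zero, hp1])
      (by push_cast; nlinarith) (by push_cast; nlinarith) (by push_cast; nlinarith)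
    refine ⟨t, ?_, ?_⟩
    · rw [sub_zero] at h3
      rw [h3]
      push_cast
      ring
    · refine (hN.two_le t p).trans ?_
      rw [h1, h2]
      push_cast
      linarith

/-- A chain of elements with short doubles which comes close to `y` and to `-y`. -/
theorem chain (y : ℤ) (v : ℚ) (hv : 0 < v) (hy : 0 < N (2 * y)) (m : ℕ)
    (hm : N (2 * y) / 2 ≤ N y - m * (v / 2)) :
    ∃ p : ℤ, N (2 * p) ≤ v ∧ N (p - y) = N y - m * (v / 2) ∧ N (p + y) = N y - m * (v / 2) := by
  have hv' : (0:ℝ) < v := by exact_mod_cast hv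
  induction m with
  | zero =>
    refine ⟨0, by simpa [hN.zero] using hv'.le, ?_, ?_⟩
    · rw [zero_sub, hN.neg]; simp
    · rw [zero_add]; simp
  | succ m ih =>
    push_cast at hm
    obtain ⟨p, h1, h2, h3⟩ := ih (by nlinarith)
    obtain ⟨q, hq⟩ := hN.rat y
    have hb : (((q - (m + 1) * (v / 2) : ℚ)) : ℝ) = N y - (m + 1) * (v / 2) := by
      rw [hq]; push_cast; ring
    obtain ⟨t, t1, t2, t3, t4⟩ := hN.four p y (v / 2) (q - (m + 1) * (v / 2))
      (N y - m * (v / 2)) (by positivity)
      (by
        have : (0:ℝ) < ((q - (m + 1) * (v / 2) : ℚ) : ℝ) := by rw [hb]; linarith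
        exact_mod_cast this)
      (by push_cast; linarith) (by rw [hb]; linarith) h2 h3
      (by rw [hb]; push_cast; nlinarith) (by rw [hb]; push_cast; nlinarith)
      (by rw [hb]; push_cast; nlinarith)
    refine ⟨t, ?_, ?_, ?_⟩
    · refine (hN.two_le t p).trans ?_
      rw [t1, t2]
      push_cast
      linarith
    · rw [t3, hb]; push_cast; ring
    · rw [t4, hb]; push_cast; ring

theorem approx (y : ℤ) (v : ℚ) (hv : 0 < v) :
    ∃ p : ℤ, N (2 * p) ≤ v ∧ N (y - p) ≤ N (2 * y) / 2 + v := by
  have hv' : (0:ℝ) < v := by exact_mod_cast hv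
  rcases (hN.nonneg (2 * y)).eq_or_lt with h | h
  · refine ⟨y, by rw [← h]; exact hv'.le, ?_⟩
    rw [sub_self, hN.zero, ← h]
    linarith
  · set m := ⌊(N y - N (2 * y) / 2) / (v / 2)⌋₊ with hm
    have h0 : N (2 * y) ≤ 2 * N y := by
      have := hN.add_le y y
      rw [← two_mul] at this
      linarith
    have h1 : (m : ℝ) ≤ (N y - N (2 * y) / 2) / (v / 2) :=
      Nat.floor_le (div_nonneg (by linarith) (by linarith))
    have h2 : (N y - N (2 * y) / 2) / (v / 2) < m + 1 := Nat.lt_floor_add_one _
    rw [le_div_iff₀ (by linarith)] at h1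
    rw [div_lt_iff₀ (by linarith)] at h2
    obtain ⟨p, p1, p2, -⟩ := hN.chain y v hv h m (by linarith)
    refine ⟨p, p1, ?_⟩
    have : N (y - p) = N (p - y) := by rw [← hN.neg]; congr 1; ring
    rw [this, p2]
    nlinarith

theorem sequence : ∃ y : ℕ → ℤ, N (y 0) = 1 ∧ ∀ i, N (2 * y i) ≤ (1 / 4) ^ (i + 1) ∧
    N (y i - y (i + 1)) ≤ 3 / 16 * (1 / 4) ^ i := by
  obtain ⟨t, ht1, ht2⟩ := hN.chain0 (1 / 4) (by norm_num) 8
  have hF : ∀ (i : ℕ) (y : ℤ), ∃ p : ℤ, N (2 * p) ≤ (1 / 4) ^ (i + 2) ∧
      N (y - p) ≤ N (2 * y) / 2 + (1 / 4) ^ (i + 2) := by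
    intro i y
    obtain ⟨p, h1, h2⟩ := hN.approx y ((1 / 4) ^ (i + 2)) (by positivity)
    refine ⟨p, ?_, ?_⟩
    · push_cast at h1; exact h1
    · push_cast at h2; exact h2
  choose F hF1 hF2 using hF
  let y : ℕ → ℤ := fun n => Nat.rec t (fun i z => F i z) n
  have hy : ∀ i, N (2 * y i) ≤ (1 / 4) ^ (i + 1) := by
    intro i
    cases i with
    | zero =>
      have h3 : N (2 * t) ≤ (1 / 4) ^ (0 + 1) := by
        rw [zero_add, pow_one]
        push_cast at ht2
        exact ht2
      exact h3
    | succ i => exact hF1 i (y i)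
  refine ⟨y, ?_, fun i => ⟨hy i, ?_⟩⟩
  · show N t = 1
    rw [ht1]; norm_num
  · have h := hF2 i (y i)
    have h' := hy i
    have e : y (i + 1) = F i (y i) := rfl
    rw [e]
    have e1 : ((1:ℝ) / 4) ^ (i + 2) = (1 / 4) ^ i * (1 / 16) := by rw [pow_add]; norm_num
    have e2 : ((1:ℝ) / 4) ^ (i + 1) = (1 / 4) ^ i * (1 / 4) := by rw [pow_succ]
    rw [e1] at h
    rw [e2] at h'
    linarith

end Ext

/-! ### The norm of a cyclic automorphism -/

section norm

variable {Q : Type} [MetricSpace Q]

/-- The norm. -/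
noncomputable def Nm (σ : Q ≃ᵢ Q) (x₀ : Q) (n : ℤ) : ℝ := dist x₀ ((σ ^ n) x₀)

theorem dist_zpow (σ : Q ≃ᵢ Q) (x₀ : Q) (m n : ℤ) :
    dist ((σ ^ m) x₀) ((σ ^ n) x₀) = Nm σ x₀ (n - m) := by
  have h : (σ ^ n) x₀ = (σ ^ m) ((σ ^ (n - m)) x₀) := by
    rw [← IsometryEquiv.mul_apply, ← zpow_add]
    congr 2
    ring
  rw [h, (σ ^ m).isometry.dist_eq]
  rfl

theorem ext_of (hQ : IsRatUrysohn Q) (σ : Q ≃ᵢ Q) (hσ : IsCyclicAut σ) (x₀ : Q) :
    Ext (Nm σ x₀) where
  zero := by simp [Nm]
  neg n := by
    have h := dist_zpow σ x₀ n 0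
    rw [zero_sub] at h
    rw [← h, dist_comm]
    simp [Nm]
  add_le m n := by
    have h := dist_zpow σ x₀ m (m + n)
    rw [add_sub_cancel_left] at h
    rw [← h]
    exact dist_triangle _ _ _
  rat n := hQ.rat _ _
  ext k x f hpos h1 h2 := by
    obtain ⟨z, hz⟩ := extension hQ (fun i => (σ ^ (x i)) x₀) f hpos
      (fun i j => by
        show (f i : ℝ) ≤ f j + dist ((σ ^ (x i)) x₀) ((σ ^ (x j)) x₀)
        rw [dist_comm, dist_zpow]; exact h1 i j)
      (fun i j => by
        show dist ((σ ^ (x i)) x₀) ((σ ^ (x j)) x₀) ≤ f i + f j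
        rw [dist_comm, dist_zpow]; exact h2 i j)
    obtain ⟨t, ht, -⟩ := hσ x₀ z
    refine ⟨t, fun i => ?_⟩
    rw [← hz i, ← ht, dist_comm, dist_zpow]

theorem hat_zpow_coe (σ : Q ≃ᵢ Q) (n : ℤ) (x : Q) :
    ((hat Q σ) ^ n) (x : Completion Q) = (((σ ^ n) x : Q) : Completion Q) := by
  rw [← map_zpow]
  exact Completion.map_coe (σ ^ n).isometry.uniformContinuous x

theorem dist_hat (σ : Q ≃ᵢ Q) (hσ : IsCyclicAut σ) (x₀ : Q) (m n : ℤ) (u : Completion Q) :
    dist (((hat Q σ) ^ m) u) (((hat Q σ) ^ n) u) = Nm σ x₀ (n - m) := by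
  induction u using Completion.induction_on with
  | hp =>
    apply isClosed_eq
    · exact ((hat Q σ) ^ m).continuous.dist ((hat Q σ) ^ n).continuous
    · exact continuous_const
  | ih x =>
    obtain ⟨k, hk, -⟩ := hσ x₀ x
    rw [hat_zpow_coe, hat_zpow_coe, Completion.dist_eq, ← hk, ← IsometryEquiv.mul_apply,
      ← IsometryEquiv.mul_apply, ← zpow_add, ← zpow_add, dist_zpow]
    congr 1
    ring

end norm

/-- **Every cyclic automorphism of the rational Urysohn space generates a group of isometries of the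
Urysohn space whose closure contains an element of order two.** -/
theorem result : ∀ (Q : Type) [MetricSpace Q], IsRatUrysohn Q → ∀ σ : Q ≃ᵢ Q, IsCyclicAut σ →
    ∃ g ∈ G σ, orderOf g = 2 := by
  intro Q _ hQ σ hσ
  obtain ⟨e0, -⟩ := hQ.universal Unit (fun x y => ⟨0, by simp⟩)
  set x₀ : Q := e0 () with hx₀
  have hN := ext_of hQ σ hσ x₀
  obtain ⟨y, hy0, hy⟩ := hN.sequence
  set τ := hat Q σ with hτ
  have hd : ∀ (u : Completion Q) (i : ℕ),
      dist ((τ ^ (y i)) u) ((τ ^ (y (i + 1))) u) ≤ 3 / 16 * (1 / 4) ^ i := by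
    intro u i
    rw [dist_comm, dist_hat σ hσ x₀]
    exact (hy i).2
  have hc : ∀ u : Completion Q, ∃ w, Tendsto (fun i => (τ ^ (y i)) u) atTop (𝓝 w) := fun u =>
    cauchySeq_tendsto_of_complete (cauchySeq_of_le_geometric (1 / 4) (3 / 16) (by norm_num) (hd u))
  choose g hg using hc
  have hiso : Isometry g := by
    apply Isometry.of_dist_eq
    intro u w
    have h1 : Tendsto (fun i => dist ((τ ^ (y i)) u) ((τ ^ (y i)) w)) atTop
        (𝓝 (dist (g u) (g w))) := (hg u).dist (hg w)
    have h2 : (fun i => dist ((τ ^ (y i)) u) ((τ ^ (y i)) w)) = fun _ => dist u w := by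
      funext i
      exact (τ ^ (y i)).isometry.dist_eq u w
    rw [h2] at h1
    exact (tendsto_nhds_unique h1 tendsto_const_nhds)
  have hinv : ∀ u, g (g u) = u := by
    intro u
    have h1 : Tendsto (fun i => (τ ^ (y i)) (g u)) atTop (𝓝 (g (g u))) := hg (g u)
    have h2 : Tendsto (fun i => dist ((τ ^ (y i)) (g u)) u) atTop (𝓝 0) := by
      have h3 : Tendsto (fun i => dist (g u) ((τ ^ (y i)) u) + (1 / 4 : ℝ) ^ (i + 1)) atTop
          (𝓝 (0 + 0)) := by
        apply Tendsto.add
        · have := (tendsto_const_nhds (x := g u)).dist (hg u)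
          rwa [dist_self] at this
        · exact (tendsto_add_atTop_iff_nat 1).2
            (tendsto_pow_atTop_nhds_zero_of_lt_one (by norm_num) (by norm_num))
      rw [add_zero] at h3
      refine squeeze_zero (fun i => dist_nonneg) (fun i => ?_) h3
      have h4 := dist_triangle ((τ ^ (y i)) (g u)) ((τ ^ (y i)) ((τ ^ (y i)) u)) u
      rw [(τ ^ (y i)).isometry.dist_eq] at h4
      have h5 : dist ((τ ^ (y i)) ((τ ^ (y i)) u)) u ≤ (1 / 4 : ℝ) ^ (i + 1) := by
        have h6 := dist_hat σ hσ x₀ 0 (2 * y i) u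
        rw [zpow_zero, sub_zero, IsometryEquiv.coe_one, id_eq, two_mul, zpow_add,
          IsometryEquiv.mul_apply, dist_comm, ← two_mul] at h6
        rw [h6]
        exact (hy i).1
      linarith
    have h7 := h1.dist (tendsto_const_nhds (x := u))
    have h8 := tendsto_nhds_unique h7 h2
    exact dist_eq_zero.1 h8
  let γ : Completion Q ≃ᵢ Completion Q :=
    { toFun := g
      invFun := g
      left_inv := hinv
      right_inv := hinv
      isometry_toFun := hiso }
  refine ⟨γ, ?_, ?_⟩
  · let _ : TopologicalSpace (Completion Q ≃ᵢ Completion Q) := isoTop (Completion Q)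
    have hind : IsInducing (fun g : Completion Q ≃ᵢ Completion Q => (g : Completion Q → Completion Q)) :=
      ⟨rfl⟩
    have ht : Tendsto (fun i => τ ^ (y i)) atTop (𝓝 γ) := by
      rw [hind.tendsto_nhds_iff, tendsto_pi_nhds]
      intro u
      exact hg u
    exact mem_closure_of_tendsto ht (Eventually.of_forall fun i => ⟨y i, rfl⟩)
  · rw [orderOf_eq_prime_iff]
    constructor
    · ext u
      rw [pow_two]
      exact hinv u
    · intro h
      have h1 : g (x₀ : Completion Q) = x₀ := by
        have := congrArg (fun k : Completion Q ≃ᵢ Completion Q => k (x₀ : Completion Q)) h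
        exact this
      have h2 := dist_le_of_le_geometric_of_tendsto₀ (1 / 4) (3 / 16) (by norm_num)
        (hd (x₀ : Completion Q)) (hg (x₀ : Completion Q))
      have h3 := dist_hat σ hσ x₀ 0 (y 0) (x₀ : Completion Q)
      rw [zpow_zero, sub_zero, hy0, IsometryEquiv.coe_one, id_eq, dist_comm] at h3
      rw [h1] at h2
      rw [← hτ] at h3
      rw [h3] at h2
      norm_num at h2

end Pool.Agent.Results.MP_30c7ca_gt.AlwaysTorsion
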